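import Pool.Agent.Helper66.FL.Main

/-!
`F^e_* 𝒪_X` lifts to characteristic zero for every blow-up `X` of the projective plane over a
perfect infinite field of characteristic `p` in finitely many distinct rational points (in particular
for every del Pezzo surface of degree at most four over an algebraically closed field).
-/

open AlgebraicGeometry CategoryTheory

universe u

namespace Pool.Agent.Results.MP_b2373b_ag.FrobeniusPushforwardLift

open Pool.Agent.FL

/-- Let `k` be a perfect infinite field of characteristic `p` and let `P 0, …, P (r-1)` be `r ≥ 1`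
distinct `k`-points of the projective plane `ℙ²` over `k`.  The blow-up of `ℙ²` in these points exists,
and for every such blow-up `π : X ⟶ ℙ²` and every `e` the `p ^ e`-power Frobenius endomorphism `F` of
`X` exists and `F_* 𝒪_X` lifts to characteristic zero. -/
theorem result (p : ℕ) [Fact p.Prime] (k : Type u) [Field k] [CharP k p] [PerfectRing k p]
    [Infinite k] {r : ℕ} (hr : 0 < r) (P : Fin r → (Spec (.of k) ⟶ P2 k))
    (hP : ∀ i, P i ≫ strP2 k = 𝟙 _) (hd : Function.Injective P) :
    (∃ (X : Scheme.{u}) (π : X ⟶ P2 k), IsBlowUp π (idealOfPts P)) ∧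
    ∀ {X : Scheme.{u}} (π : X ⟶ P2 k), IsBlowUp π (idealOfPts P) → ∀ e : ℕ,
      (∃ F : X ⟶ X, IsPowFrobenius (p ^ e) F) ∧
      ∀ F : X ⟶ X, IsPowFrobenius (p ^ e) F →
        LiftsToCharZero (π ≫ strP2 k)
          ((Scheme.Modules.pushforward F).obj (SheafOfModules.unit X.ringCatSheaf)) :=
  ⟨exists_blowUp hr P hP hd, fun π hπ e => lifts_blowUp p hr P hP hd π hπ e⟩

end Pool.Agent.Results.MP_b2373b_ag.FrobeniusPushforwardLift
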